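import Pool.Agent.N95.GH.Arith

/-!
MP_c7af3c_ag, Q1: all projective varieties with a finite correspondence of small degree to a generic
complete intersection are groupless and arithmetically hyperbolic.

Let `K` be an algebraically closed field of characteristic `0`, and let `k` be a field contained in
`K`, with algebraic closure `k'` in `K`. A *generic complete intersection* `X` (`GenericCI k K`, in
`Pool/Agent/N111/GI/Maps.lean`) is the intersection of a closed subset `V` of a projective space,
defined over `k'`, of dimension at most `m`, and of hypersurfaces `F a = 0` of degrees `d a`, where
the ratios of the coefficients of `F a` to one of them are, for all `a` together, algebraically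
independent over `k`. Let `S` be the sum of the numbers `d a + 1`.

Let `Z` be a closed subset of a projective space (not necessarily irreducible or smooth), given by
the set `Φ` of forms. A *finite multi-valued map* with at most `r` values from `Z` to `X` (`FinMap`,
in `Pool/Agent/N95/GH/Cor.lean`) is a closed subset `Γ` of `Z × X`, given by bihomogeneous
polynomials, such that the fibres of `Γ → Z` have at least one and at most `r` points, and the
fibres of `Γ → X` have at most `N` points, for some `N`. For instance, if `W → Z` is a finite
surjective morphism with fibres of at most `r` points, and `W → X` is a finite morphism, then the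
image of `W` in `Z × X` is a finite multi-valued map. So `Z` can be the quotient, by a finite group
of order at most `r`, of any finite cover `W` of a closed subset of `X`, or any image of `W` under a
finite morphism with fibres of at most `r` points.

A morphism to `Z` from a smooth projective curve is given by a point `f` of `Z` over the function
field `E` of the curve, `pht K f` is its degree (the degree of the pullback of `O(1)`), and
`canDeg K E = 2 g - 2`, where `g` is the genus of the curve.

An algebraically hyperbolic variety is groupless: a nonconstant morphism from an abelian variety is
nonconstant on some smooth projective curve that is mapped to the abelian variety, and the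
multiplications by the natural numbers give morphisms of unbounded degree from this curve. The points
of a model of `Z` over a finitely generated ring `A` are points of `Z` over the field generated over
`k'` by finitely many elements.
-/

set_option autoImplicit false
set_option linter.overlappingInstances false

namespace Pool.Agent.Results.MP_c7af3c_ag.FiniteCorrespondences

open MvPolynomial FF Pool.Agent.W603.LV Pool.Agent.W603.PV LinearAlgebra.Projectivization
open Pool.Agent.N111.GI (GenericCI)
open Pool.Agent.N95.GH (FinMap OnSet)

/-- Let `Z = {Φ = 0}` have a finite multi-valued map with at most `r ≥ 1` values to a generic complete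
intersection `X`, and suppose that `S ≥ 2 m + 1 + r`. Then

(1) `Z` has only finitely many points over each field generated over `k'` by finitely many elements
of `K`, so `Z` is arithmetically hyperbolic;

(2) there is a constant `A` such that, for all smooth projective curves `C`, all morphisms from `C`
to `Z` have degree at most `A max (2 g (C) - 2, 0)`, so `Z` is algebraically hyperbolic, hence
groupless. -/
theorem result {k K : Type} [Field k] [Field K] [IsAlgClosed K] [CharZero K] [Algebra k K]
    {M : ℕ} {Φ : Set (MvPolynomial (Fin (M + 1)) K)} (hΦ : ∀ f ∈ Φ, ∃ e, f.IsHomogeneous e)
    {X : GenericCI k K} {r : ℕ} (C : FinMap Φ X r) (hr : 1 ≤ r)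
    (hS : 2 * X.m + 1 + r ≤ ∑ a, (X.d a + 1)) :
    (∀ T : Finset K, {p : ℙ K (Fin (M + 1) → K) | ∃ (z : Fin (M + 1) → K) (hz : z ≠ 0),
      p = Projectivization.mk K z hz ∧ (∀ f ∈ Φ, aeval z f = 0) ∧
      ∀ i, z i ∈ IntermediateField.adjoin (algebraicClosure k K) (T : Set K)}.Finite) ∧
    ∃ A : ℕ, ∀ (E : Type) [Field E] [Algebra K E] [IsFF K E] (f : Fin (M + 1) → E), OnSet Φ f →
      pht K f ≤ A * max (canDeg K E) 0 := by
  refine ⟨C.fin_points hΦ hS, ?_⟩
  obtain ⟨A, hA⟩ := C.cover (ρ := 1) hΦ (by omega) (by omega)
  exact ⟨A, fun E _ _ _ f hf => hA E E (by rw [Module.finrank_self]) f hf⟩

end Pool.Agent.Results.MP_c7af3c_ag.FiniteCorrespondences
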