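import Pool.Agent.N126.IS.All4

/-!
MP_c7af3c_ag, Q1: grouplessness and arithmetic hyperbolicity of the inverse images `X` of ALL
projective varieties under power maps of large degree, over an arbitrary algebraically closed
field `K` of characteristic `0`: both properties of `X` are equivalent to the same property of all
the isotrivial parts of `X`, which are varieties over the field of the algebraic numbers; so the
conjecture for `X` follows from the conjecture for varieties over this field.

The `F i` are forms of degree `D` in `n + 1` variables over `K` whose monomials are in the finite
set `T`, and `X = {Pre m F = 0}` is the set of the points `x` of the projective `n`-space such that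
`F i (x 0 ^ m, …, x n ^ m) = 0` for all `i`, for a fixed large `m` (depending only on `n` and on the
cardinality of `T`; the forms `F i` are otherwise arbitrary, with arbitrary coefficients in `K`).

* `Tr k μ F` (`k` an algebraically closed subfield of `K`): equations over `k` of the isotrivial part
  `X_μ = {c : (μ i * c i) ∈ {F = 0}}`, a closed subset of the projective `n`-space over `k`.
* `AlgHyperbolic A F`: the degree of every morphism `f` from a smooth projective curve of genus `g`
  to `{F = 0}` is at most `A max (2 g - 2, 0)`. The curve is given by its function field, the
  morphism by its homogeneous coordinates; its degree is `pht K f`, and `2 g - 2` is `canDeg K L`.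
* `BoundedOnCurves F`: these degrees are bounded for each curve.
* `OrbitsConstant F`: the morphisms `t ↦ (x_0 t ^ b_0 : … : x_n t ^ b_n)` from the multiplicative
  group to `{F = 0}` are constant.
* `GmCurve F P`: a nonconstant morphism from the multiplicative group to `{F = 0}`.
* `AllGeneralType F`: all closed subvarieties of positive dimension are of general type.
* `Mordellic F`: finitely many points over each finitely generated field.
* `ArithHyp F`: for each subring `A` generated by a finite set `T` of elements, there are only
  finitely many points of `{F = 0}` with homogeneous coordinates in `A` which generate the unit ideal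
  of `A` (`RPts F T`); they are `A`-valued points of the closed subscheme of the projective space
  over `A` with the equations `F`, if `A` contains their coefficients.

Arithmetic hyperbolicity lies between `Mordellic` and `ArithHyp` (points of models are determined by
the points over the field of fractions of `A`). Grouplessness lies between `BoundedOnCurves` (an
abelian variety has endomorphisms of arbitrarily large degree on curves) and the condition that there
are no nonconstant morphisms from the multiplicative group (its closure is a rational curve, and
there are morphisms from elliptic curves to it).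
-/

set_option autoImplicit false

namespace Pool.Agent.Results.MP_c7af3c_ag.PowerMapGroupless

open MvPolynomial Pool.Agent.W602.GT Pool.Agent.N126.IS
open Pool.Agent.W603.CX (OrbitsConstant AlgHyperbolic BoundedOnCurves)

section

variable {K : Type} [Field K] {n : ℕ} {ι : Type}

/-- The geometric conditions for `{G = 0}` are equivalent. -/
def GeomEquiv (A : ℕ) (G : ι → MvPolynomial (Fin (n + 1)) K) : Prop :=
  [AlgHyperbolic A G, BoundedOnCurves G, OrbitsConstant G, ∀ P, ¬ GmCurve G P,
    AllGeneralType G].TFAE

/-- All the isotrivial parts of `{G = 0}` over `k` are bounded on curves. -/
def BoundedIso (k : Type) [Field k] [Algebra k K] (G : ι → MvPolynomial (Fin (n + 1)) K) : Prop :=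
  ∀ μ : Fin (n + 1) → K, (∀ i, μ i ≠ 0) → BoundedOnCurves (Tr k μ G)

variable [CharZero K]

/-- All the isotrivial parts of `{G = 0}` over the algebraic numbers are Mordellic. -/
def MordellicIso (G : ι → MvPolynomial (Fin (n + 1)) K) : Prop :=
  ∀ μ : Fin (n + 1) → K, (∀ i, μ i ≠ 0) → Mordellic (Tr (algebraicClosure ℚ K) μ G)

/-- All the isotrivial parts of `{G = 0}` over the algebraic numbers are arithmetically
hyperbolic. -/
def ArithIso (G : ι → MvPolynomial (Fin (n + 1)) K) : Prop :=
  ∀ μ : Fin (n + 1) → K, (∀ i, μ i ≠ 0) → ArithHyp (Tr (algebraicClosure ℚ K) μ G)

/-- The conjecture for all the isotrivial parts of `{G = 0}` over the algebraic numbers. -/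
def ConjectureIso (G : ι → MvPolynomial (Fin (n + 1)) K) : Prop :=
  ∀ μ : Fin (n + 1) → K, (∀ i, μ i ≠ 0) → (BoundedOnCurves (Tr (algebraicClosure ℚ K) μ G) ↔
    ArithHyp (Tr (algebraicClosure ℚ K) μ G))

end

theorem result :
    ∀ (n m D : ℕ) (T : Finset (Fin (n + 1) →₀ ℕ)),
      (n + 1) * (T.card + 1) * (T.card - 1) ^ 2 < m →
      ∃ A : ℕ, ∀ (K : Type) [Field K] [IsAlgClosed K] [CharZero K] (ι : Type)
        (F : ι → MvPolynomial (Fin (n + 1)) K), (∀ i, (F i).IsHomogeneous D) →
        (∀ i, (F i).support ⊆ T) →
      -- (1) the geometric conditions are equivalent
      GeomEquiv A (Pre m F) ∧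
      -- and they hold if and only if they hold for the isotrivial parts, over any field `k`
      (∀ (k : Type) [Field k] [IsAlgClosed k] [Algebra k K],
        (BoundedOnCurves (Pre m F) ↔ BoundedIso k (Pre m F))) ∧
      -- (2) the arithmetic conditions are equivalent, and they hold if and only if they hold for the
      -- isotrivial parts over the field of the algebraic numbers
      [Mordellic (Pre m F), ArithHyp (Pre m F), MordellicIso (Pre m F),
        ArithIso (Pre m F)].TFAE ∧
      -- so the conjecture for `X` follows from the conjecture for the isotrivial parts
      (ConjectureIso (Pre m F) → (BoundedOnCurves (Pre m F) ↔ ArithHyp (Pre m F))) ∧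
      -- (3) persistence: arithmetic hyperbolicity holds over all algebraically closed extensions
      (ArithHyp (Pre m F) → ∀ (K' : Type) [Field K'] [IsAlgClosed K'] [Algebra K K'],
        ArithHyp (Pre m fun i => map (algebraMap K K') (F i))) := by
  intro n m D T hm
  have hm' : bound n T.card < m := hm
  obtain ⟨A, hA⟩ := geom_all (n := n) (m := m) (D := D) (T := T) hm'
  refine ⟨A, fun K _ _ _ ι F hF hT => ⟨(hA K ι F hF hT).1, (hA K ι F hF hT).2,
    arith_all hF hT hm', conj_all hF hT hm', fun h K' _ _ _ => persist_arith hF hT hm' h⟩⟩

end Pool.Agent.Results.MP_c7af3c_ag.PowerMapGroupless
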