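import Pool.Agent.N126.RC.FinalW

/-!
MP_c7af3c_ag, Q1: all finite coverings of arbitrary projective varieties (and of their complete
intersections with generic hypersurfaces) which are sufficiently ramified over generic hypersurface
sections are algebraically hyperbolic (so groupless) and arithmetically hyperbolic.

Let `K` be an algebraically closed field of characteristic `0`, and let `k` be a field contained in
`K`, with algebraic closure `k'` in `K`. Let `V` be a closed subset of the projective `n`-space over
`k'`, of dimension at most `m`, and let `F_a`, for `a` in a finite set `A`, be generic forms of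
degrees `d_a` (`Generic`: the ratios of their coefficients are algebraically independent over `k`).

Let `X` be a closed subset of the weighted projective space over `K` with the coordinates
`x_0, …, x_n` of weight `1` and `u_w` of weight `e_w ≥ 1`, `w ∈ W`, with equations `G_i = 0`, such
that

* `(x, u) ↦ x` is a finite morphism on `X` (`FiniteOver`), with image in `V` and in the hypersurfaces
  `F_a = 0`, `a ∈ C` (`Over`); `C` is a subset of `A`, for example empty;
* for the `a` not in `C`, this morphism is ramified of order at least `q_a ≥ 1` over `F_a = 0`
  (`RamifiedOver`: locally on `X`, the function `F_a` is in the `q_a`-th power of an ideal whose set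
  of zeros contains `{F_a = 0}`; if `X` is smooth, then this means that the inverse image of the
  divisor `F_a = 0` has multiplicity at least `q_a` at each of its components).

Each projective variety with a finite morphism to `V` can be given in this way. Let `T` be the sum
of the numbers `d_a + 1`, `a ∈ C`, and `d_a (1 - 1 / q_a)`, `a ∉ C`. Then

* if `T > 2 m`: `(T - 2 m) deg f ≤ 2 g - 2` for all nonconstant morphisms `f` from smooth projective
  curves of any genus `g` to `X` (`CurveBound`); so `X` is algebraically hyperbolic, and groupless;
* if `T > 2 m + 1`: `X` has only finitely many points over each field generated over `k'` by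
  finitely many elements of `K` (`FinitePoints`); so `X` is arithmetically hyperbolic.
-/

set_option autoImplicit false

namespace Pool.Agent.Results.MP_c7af3c_ag.RamifiedGroupless

open MvPolynomial Pool.Agent.N126.RC Pool.Agent.TH145.MG

theorem result {k K : Type} [Field k] [Field K] [IsAlgClosed K] [CharZero K] [Algebra k K]
    {n m : ℕ}
    -- a closed subset of projective space, of dimension at most `m`
    (V : Set (MvPolynomial (Fin (n + 1)) (algebraicClosure k K)))
    (hVh : ∀ f ∈ V, ∃ e, f.IsHomogeneous e) (hV : DimLE (algebraicClosure k K) V m)
    -- generic forms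
    {A : Type} [Fintype A] [DecidableEq A] (d : A → ℕ) (F : A → MvPolynomial (Fin (n + 1)) K)
    (hF : Generic k d F)
    -- the projective variety `X = {G = 0}`, finite over `V ∩ ⋂ {F a = 0}`, `a ∈ C`, and ramified
    (C : Finset A) (q : A → ℕ) (hq : ∀ a, a ∉ C → q a ≠ 0)
    {W ι : Type} [Finite W] [Finite ι] (e : W → ℕ) (he : ∀ w, 0 < e w)
    (G : ι → MvPolynomial (Fin (n + 1) ⊕ W) K)
    (hG : ∀ i, ∃ c, (G i).IsWeightedHomogeneous (wts e) c) (hfin : FiniteOver G)
    (hov : Over V F C G) (hram : ∀ a, a ∉ C → RamifiedOver G (F a) (q a))
    (T : ℚ) (hT : T = ∑ a ∈ C, ((d a : ℚ) + 1) + ∑ a ∈ Cᶜ, (d a : ℚ) * (1 - 1 / q a)) :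
    CurveBound G (T - 2 * m) ∧ (2 * m + 1 < T → FinitePoints (algebraicClosure k K) e G) := by
  subst hT
  exact ⟨curve_proj V hVh hV F hF C hq e G hG hfin hov hram,
    fun hd => (proj_main V hVh hV F hF C hq hd e he G hG hfin hov hram).1⟩

end Pool.Agent.Results.MP_c7af3c_ag.RamifiedGroupless
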