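import Pool.Agent.N254.SQ.Fin3
import Pool.Agent.N254.SQ.Ring

/-!
# Groupless and arithmetically hyperbolic varieties: smooth hypersurfaces suffice

Over `k = ℂ`. A projective variety is groupless if and only if all holomorphic maps from complex
tori to it are constant, and arithmetically hyperbolic if and only if it has only finitely many
`A`-valued points for every finitely generated subring `A` of `ℂ` (points of all models over `A`; here
those of the closed subscheme of projective space over `A` with the same equations, which is enough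
as two models become isomorphic over a finitely generated ring).

Let `X = V(S)` be any projective variety in `P^n`, `n ≥ 1` (any dimension and any singularities), given
by forms of degree at most `d`, `d ≥ 3`, and `v : P^n → P^N` the Veronese embedding of degree `d`. For
all `D ≥ D₁(N)` there are quadratic forms `Q_t`, `t < N (2 N + 1)`, such that the hypersurface

`Y : ∑ t, Q_t(y) (y_0 + t y_1 + ⋯ + t^N y_N)^D = 0`

is smooth, contains `v(X)`, and all nonconstant maps from tori to `Y` have their images in `v(X)`; so `Y`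
is groupless if and only if `X` is groupless. Consequently, for every infinite set of exponents `D`,

* the implication groupless `⟹` arithmetically hyperbolic holds for all projective varieties over `ℂ` if
  and only if it holds for the smooth hypersurfaces of this form;
* the equivalence of Q1 in the form with exceptional sets (`G` vanishes on all images of tori if and
  only if there are finitely many `A`-valued points with `G ≠ 0` for all finitely generated rings `A`, for
  all forms `G`; the case `G = 1` is Q1) holds for all projective varieties over `ℂ` if and only if it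
  holds for the smooth hypersurfaces of this form.

The same holds for points over finitely generated fields, and for any other class of subrings.
-/

set_option autoImplicit false

namespace Pool.Agent.Results.MP_c7af3c_ag.SmoothHypersurfacesSuffice

open MvPolynomial
open Pool.Agent.N254.SQ (IsForm OnTori FiniteOver fgRings SmoothForm powerForm Monomials veronese)

/-- all holomorphic maps from complex tori to `V(S)` are constant -/
def Groupless {n : ℕ} (S : Set (MvPolynomial (Fin (n + 1)) ℂ)) : Prop := OnTori S 1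

/-- for every finitely generated subring `A` of `ℂ` there are only finitely many `A`-valued points of
`V(S)` -/
def ArithmeticallyHyperbolic {n : ℕ} (S : Set (MvPolynomial (Fin (n + 1)) ℂ)) : Prop :=
  FiniteOver fgRings S 1

section proof

open Pool.Agent.N254.SQ (Mon ver Good powerSum pull pull_hom reduce leaves leaves4 main5 t_ext
  t_versurj power_form eval_pull ver_diff ver_ne_zero ver_smul ver_prop maps RingBasics)
open scoped LinearAlgebra.Projectivization

/-- the construction over the complex numbers -/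
theorem cons : ∃ D₁ : ℕ → ℕ,
    ∀ n d : ℕ, 1 ≤ n → 3 ≤ d → ∃ (N : ℕ) (m : Fin (N + 1) → Fin (n + 1) → ℕ),
      Mon n N d m ∧ ∀ D, D₁ N ≤ D →
        ∀ S : Set (MvPolynomial (Fin (n + 1)) ℂ), (∀ p ∈ S, ∃ e ≤ d, p.IsHomogeneous e) →
        ∃ Q : Fin (N * (2 * N + 1)) → MvPolynomial (Fin (N + 1)) ℂ,
          (∀ t, (Q t).IsHomogeneous 2) ∧ SmoothForm (powerForm D Q) ∧
          (∀ x : Fin (n + 1) → ℂ, (∀ p ∈ S, eval x p = 0) →
            eval (veronese m x) (powerForm D Q) = 0) ∧
          Good n N d m S (powerForm D Q) := by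
  obtain ⟨D₁, H⟩ := main5 leaves4 t_ext
  refine ⟨D₁, fun n d hn hd => ?_⟩
  obtain ⟨N, m, hm, -, H2⟩ := H n d hn hd
  refine ⟨N, m, hm, fun D hD S hS => ?_⟩
  obtain ⟨Q, hQ, hsm, hv, hg⟩ := H2 D hD ℂ (RingHom.id ℂ) S hS
  have e1 : map (RingHom.id ℂ) '' S = S := by
    have : (fun p : MvPolynomial (Fin (n + 1)) ℂ => map (RingHom.id ℂ) p) = id := by
      funext p
      exact map_id p
    change (fun p : MvPolynomial (Fin (n + 1)) ℂ => map (RingHom.id ℂ) p) '' S = S
    rw [this, Set.image_id]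
  rw [e1, map_id] at hg
  refine ⟨Q, hQ, ?_, hv, hg⟩
  intro y hy
  obtain ⟨j, hj⟩ := hsm ℂ (RingHom.id ℂ) y hy
  rw [map_id] at hj
  exact ⟨j, hj⟩

/-- holomorphic maps from complex tori to the hypersurface and to the variety -/
theorem tori_iff {n N d : ℕ} {m : Fin (N + 1) → Fin (n + 1) → ℕ}
    {S : Set (MvPolynomial (Fin (n + 1)) ℂ)} {A : MvPolynomial (Fin (N + 1)) ℂ}
    (hg : Good n N d m S A) {G : MvPolynomial (Fin (N + 1)) ℂ} :
    OnTori {A} G ↔ OnTori S (pull m G) := by
  constructor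
  · intro h g L hL hL2 F hF1 hF0 hFS hFL
    rcases h g L hL hL2 (fun z => ver m (F z)) (ver_diff hF1)
      (fun z => ver_ne_zero hg.mon hg.deg (hF0 z)) (fun z p hp => by
        rw [Set.mem_singleton_iff] at hp
        rw [hp]
        exact hg.sub ℂ (F z) (hFS z)) (fun z l hl => by
        obtain ⟨c, hc⟩ := hFL z l hl
        refine ⟨c ^ d, ?_⟩
        rw [hc, ver_smul hg.mon]) with h1 | h1
    · left
      intro z w
      obtain ⟨c, hc⟩ := h1 z w
      exact ver_prop hg.mon hg.deg (hF0 w) hc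
    · right
      intro z
      rw [eval_pull]
      exact h1 z
  · intro h g L hL hL2 f hf hf0 hfA hfL
    by_cases hcon : ∀ z w, ∃ c : ℂ, f w = c • f z
    · exact Or.inl hcon
    · right
      choose e he using hg.homS
      obtain ⟨F, hF1, hF0, hFS, hGF⟩ := maps leaves.lift hg.mon hg.deg
        (fun p : S => (p : MvPolynomial (Fin (n + 1)) ℂ)) (fun p => e p p.2)
        (fun p => he p p.2) A (by
          intro g hg1 hg0 hgA hgn z
          rcases hg.curves (fun z j => g j z) (differentiable_pi.2 hg1) (fun z h0 => by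
              obtain ⟨j, hj⟩ := hg0 z
              exact hj (congrFun h0 j)) hgA with h4 | h4
          · exfalso
            obtain ⟨i, j, z, w, hne⟩ := hgn
            apply hne
            obtain ⟨c, hc⟩ := h4 z w
            have h5 := congrFun hc i
            have h6 := congrFun hc j
            simp only [Pi.smul_apply, smul_eq_mul] at h5 h6
            rw [h5, h6]
            ring
          · obtain ⟨x, hx, hxS, hgx⟩ := h4 z
            exact ⟨x, hx, fun p => hxS _ p.2, hgx⟩) f hf hf0 (fun z => hfA z A rfl) hcon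
      rcases h g L hL hL2 F hF1 hF0 (fun z p hp => hFS z ⟨p, hp⟩) (fun z l hl => by
        obtain ⟨c, hc⟩ := hfL z l hl
        rw [hGF, hGF] at hc
        exact ver_prop hg.mon hg.deg (hF0 _) hc) with h1 | h1
      · exfalso
        apply hcon
        intro z w
        obtain ⟨c, hc⟩ := h1 z w
        exact ⟨c ^ d, by rw [hGF, hGF, hc, ver_smul hg.mon]⟩
      · intro z
        have := h1 z
        rw [eval_pull] at this
        rw [hGF]
        exact this

theorem pull_one {n N : ℕ} (m : Fin (N + 1) → Fin (n + 1) → ℕ) :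
    pull m (1 : MvPolynomial (Fin (N + 1)) ℂ) = 1 := map_one _

theorem tori_mono {n : ℕ} {S T : Set (MvPolynomial (Fin (n + 1)) ℂ)}
    (h : ∀ x : Fin (n + 1) → ℂ, (∀ p ∈ T, eval x p = 0) → ∀ p ∈ S, eval x p = 0)
    {G : MvPolynomial (Fin (n + 1)) ℂ} (hG : OnTori S G) : OnTori T G := by
  intro g L hL hL2 F hF hF0 hFT hFL
  exact hG g L hL hL2 F hF hF0 (fun z => h _ (hFT z)) hFL

theorem tori_pow {n : ℕ} {S : Set (MvPolynomial (Fin (n + 1)) ℂ)}
    {G : MvPolynomial (Fin (n + 1)) ℂ} {d : ℕ} (hd : 1 ≤ d) : OnTori S (G ^ d) ↔ OnTori S G := by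
  constructor
  · intro h g L hL hL2 F hF hF0 hFT hFL
    rcases h g L hL hL2 F hF hF0 hFT hFL with h1 | h1
    · exact Or.inl h1
    · right
      intro z
      have h2 := h1 z
      rw [map_pow] at h2
      exact eq_zero_of_pow_eq_zero h2
  · intro h g L hL hL2 F hF hF0 hFT hFL
    rcases h g L hL hL2 F hF hF0 hFT hFL with h1 | h1
    · exact Or.inl h1
    · right
      intro z
      rw [map_pow, h1 z, zero_pow (by omega)]

theorem fg_pow {R : Set (Subring ℂ)} (hR : RingBasics R) {n : ℕ} {S : Set (MvPolynomial (Fin (n + 1)) ℂ)}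
    {G : MvPolynomial (Fin (n + 1)) ℂ} (hG : IsForm G) {d : ℕ} (hd : 1 ≤ d) :
    FiniteOver R S (G ^ d) ↔ FiniteOver R S G := by
  constructor
  · intro h
    exact (hR.idl n S).rad G d hG h
  · intro h
    obtain ⟨e, he⟩ := hG
    obtain ⟨k, hk⟩ : ∃ k, d = k + 1 := ⟨d - 1, by omega⟩
    rw [hk, pow_succ']
    exact (hR.idl n S).mul G (G ^ k) ⟨e, he⟩ ⟨_, he.pow k⟩ h

/-- two points of `P^0` -/
theorem zero_prop (x y : Fin (0 + 1) → ℂ) (hx : x ≠ 0) : ∃ c : ℂ, y = c • x := by
  have h1 : x 0 ≠ 0 := by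
    intro h2
    apply hx
    funext j
    rw [show j = 0 from Fin.ext (by omega)]
    exact h2
  refine ⟨y 0 / x 0, funext fun j => ?_⟩
  rw [show j = 0 from Fin.ext (by omega), Pi.smul_apply, smul_eq_mul, div_mul_cancel₀ _ h1]

theorem zero_fg (R : Set (Subring ℂ)) (S : Set (MvPolynomial (Fin (0 + 1)) ℂ)) (G : MvPolynomial (Fin (0 + 1)) ℂ) :
    FiniteOver R S G := by
  intro s _
  apply Set.Subsingleton.finite
  rintro P ⟨-, x, hx, rfl, -⟩ P' ⟨-, x', hx', rfl, -⟩
  rw [Projectivization.mk_eq_mk_iff']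
  obtain ⟨c, hc⟩ := zero_prop x' x hx'
  exact ⟨c, hc.symm⟩

theorem zero_tori (S : Set (MvPolynomial (Fin (0 + 1)) ℂ)) (G : MvPolynomial (Fin (0 + 1)) ℂ) :
    OnTori S G := by
  intro g L _ _ F _ hF0 _ _
  left
  intro z w
  exact zero_prop _ _ (hF0 z)

/-- the choice of the exponent and of the hypersurface -/
theorem choice {D₁ : ℕ → ℕ} (H : ∀ n d : ℕ, 1 ≤ n → 3 ≤ d →
      ∃ (N : ℕ) (m : Fin (N + 1) → Fin (n + 1) → ℕ),
      Mon n N d m ∧ ∀ D, D₁ N ≤ D →
        ∀ S : Set (MvPolynomial (Fin (n + 1)) ℂ), (∀ p ∈ S, ∃ e ≤ d, p.IsHomogeneous e) →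
        ∃ Q : Fin (N * (2 * N + 1)) → MvPolynomial (Fin (N + 1)) ℂ,
          (∀ t, (Q t).IsHomogeneous 2) ∧ SmoothForm (powerForm D Q) ∧
          (∀ x : Fin (n + 1) → ℂ, (∀ p ∈ S, eval x p = 0) →
            eval (veronese m x) (powerForm D Q) = 0) ∧
          Good n N d m S (powerForm D Q)) {E : Set ℕ} (hE : E.Infinite) {n : ℕ} (hn : 1 ≤ n)
    {S : Set (MvPolynomial (Fin (n + 1)) ℂ)} (hS : ∀ p ∈ S, IsForm p) :
    ∃ (T : Set (MvPolynomial (Fin (n + 1)) ℂ)) (d N D : ℕ) (m : Fin (N + 1) → Fin (n + 1) → ℕ)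
      (Q : Fin (N * (2 * N + 1)) → MvPolynomial (Fin (N + 1)) ℂ),
      (∀ x : Fin (n + 1) → ℂ, (∀ p ∈ T, eval x p = 0) ↔ ∀ p ∈ S, eval x p = 0) ∧
      (∀ p ∈ T, ∃ e ≤ d, p.IsHomogeneous e) ∧ D ∈ E ∧ D₁ N ≤ D ∧
      (∀ t, (Q t).IsHomogeneous 2) ∧ SmoothForm (powerForm D Q) ∧ Good n N d m T (powerForm D Q) := by
  obtain ⟨T, hT, hTS⟩ := reduce S
  obtain ⟨d, hd3, hd⟩ : ∃ d, 3 ≤ d ∧ ∀ p ∈ T, ∃ e ≤ d, p.IsHomogeneous e := by
    have h3 : ∀ p ∈ T, ∃ e, p.IsHomogeneous e := fun p hp => hS p (hT hp)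
    choose! e he using h3
    refine ⟨max 3 (T.sup e), le_max_left _ _, fun p hp => ⟨e p, ?_, he p hp⟩⟩
    exact le_trans (Finset.le_sup (f := e) hp) (le_max_right _ _)
  obtain ⟨N, m, hm, H2⟩ := H n d hn hd3
  obtain ⟨D, hD, hD2⟩ := hE.exists_gt (D₁ N)
  obtain ⟨Q, hQ, hsm, hv, hg⟩ := H2 D hD2.le (T : Set (MvPolynomial (Fin (n + 1)) ℂ))
    (fun p hp => hd p hp)
  refine ⟨(T : Set (MvPolynomial (Fin (n + 1)) ℂ)), d, N, D, m, Q, ?_, fun p hp => hd p hp, hD,
    hD2.le, hQ, hsm, hg⟩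
  intro x
  constructor
  · intro hx p hp
    have h1 := hTS ℂ (RingHom.id ℂ) x (fun p hp => by
      rw [map_id]
      exact hx p hp) p hp
    rwa [map_id] at h1
  · intro hx p hp
    exact hx p (hT hp)

/-- from the hypersurface to the variety, exceptional sets -/
theorem back {R : Set (Subring ℂ)} (hR : RingBasics R) {n N d : ℕ} {m : Fin (N + 1) → Fin (n + 1) → ℕ}
    {T : Set (MvPolynomial (Fin (n + 1)) ℂ)} {A : MvPolynomial (Fin (N + 1)) ℂ}
    (hg : Good n N d m T A) (hT : ∀ p ∈ T, ∃ e ≤ d, p.IsHomogeneous e)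
    (hA : ∀ G, IsForm G → (OnTori {A} G ↔ FiniteOver R {A} G))
    {G : MvPolynomial (Fin (n + 1)) ℂ} (hG : IsForm G) : OnTori T G ↔ FiniteOver R T G := by
  have hd := hg.deg
  obtain ⟨e, he⟩ := hG
  obtain ⟨G0, hG0, hG0F⟩ := t_versurj n N d m hg.mon e (G ^ d) (by
    have := he.pow d
    rwa [mul_comm] at this)
  have h3 : pull m G0 = G ^ d := hG0F
  rw [← tori_pow hd, ← fg_pow hR ⟨e, he⟩ hd, ← h3, ← tori_iff hg, hA G0 ⟨e, hG0⟩]
  constructor
  · exact hR.pullback n N d m T A hg G0 ⟨e, hG0⟩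
  · intro h4
    refine hR.pushout n N d m T A hg hT G0 ⟨e, hG0⟩ h4 ?_
    intro F' hF' hvan
    rw [← hA F' hF', tori_iff hg]
    intro g L _ _ F _ _ hFT _
    right
    intro z
    rw [eval_pull]
    exact hvan _ (hFT z)

end proof

theorem result : ∃ D₁ : ℕ → ℕ,
    (∀ n d : ℕ, 1 ≤ n → 3 ≤ d → ∃ (N : ℕ) (m : Fin (N + 1) → Fin (n + 1) → ℕ),
      Monomials n N d m ∧ ∀ D, D₁ N ≤ D →
        ∀ S : Set (MvPolynomial (Fin (n + 1)) ℂ), (∀ p ∈ S, ∃ e ≤ d, p.IsHomogeneous e) →
        ∃ Q : Fin (N * (2 * N + 1)) → MvPolynomial (Fin (N + 1)) ℂ,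
          (∀ t, (Q t).IsHomogeneous 2) ∧ SmoothForm (powerForm D Q) ∧
          (∀ x : Fin (n + 1) → ℂ, (∀ p ∈ S, eval x p = 0) →
            eval (veronese m x) (powerForm D Q) = 0) ∧
          (∀ G : MvPolynomial (Fin (N + 1)) ℂ, IsForm G →
            (OnTori {powerForm D Q} G ↔
              OnTori S (aeval (fun a => ∏ j, (X j : MvPolynomial (Fin (n + 1)) ℂ) ^ m a j) G))) ∧
          (Groupless {powerForm D Q} ↔ Groupless S)) ∧
    (∀ E : Set ℕ, E.Infinite →
      ((∀ (n : ℕ) (S : Set (MvPolynomial (Fin (n + 1)) ℂ)), (∀ p ∈ S, IsForm p) →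
          Groupless S → ArithmeticallyHyperbolic S) ↔
        ∀ (N D : ℕ) (Q : Fin (N * (2 * N + 1)) → MvPolynomial (Fin (N + 1)) ℂ), D ∈ E →
          D₁ N ≤ D → (∀ t, (Q t).IsHomogeneous 2) → SmoothForm (powerForm D Q) →
          Groupless {powerForm D Q} → ArithmeticallyHyperbolic {powerForm D Q})) ∧
    ∀ (R : Set (Subring ℂ)) (E : Set ℕ), E.Infinite →
      ((∀ (n : ℕ) (S : Set (MvPolynomial (Fin (n + 1)) ℂ)), (∀ p ∈ S, IsForm p) →
          Groupless S → FiniteOver R S 1) ↔
        ∀ (N D : ℕ) (Q : Fin (N * (2 * N + 1)) → MvPolynomial (Fin (N + 1)) ℂ), D ∈ E →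
          D₁ N ≤ D → (∀ t, (Q t).IsHomogeneous 2) → SmoothForm (powerForm D Q) →
          Groupless {powerForm D Q} → FiniteOver R {powerForm D Q} 1) ∧
      ((∀ (n : ℕ) (S : Set (MvPolynomial (Fin (n + 1)) ℂ)), (∀ p ∈ S, IsForm p) →
          ∀ G, IsForm G → (OnTori S G ↔ FiniteOver R S G)) ↔
        ∀ (N D : ℕ) (Q : Fin (N * (2 * N + 1)) → MvPolynomial (Fin (N + 1)) ℂ), D ∈ E →
          D₁ N ≤ D → (∀ t, (Q t).IsHomogeneous 2) → SmoothForm (powerForm D Q) →
          ∀ G, IsForm G → (OnTori {powerForm D Q} G ↔ FiniteOver R {powerForm D Q} G)) := by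
  obtain ⟨D₁, H⟩ := cons
  have hform : ∀ (N D : ℕ) (Q : Fin (N * (2 * N + 1)) → MvPolynomial (Fin (N + 1)) ℂ),
      (∀ t, (Q t).IsHomogeneous 2) → ∀ p ∈ ({powerForm D Q} : Set _), IsForm p := by
    intro N D Q hQ p hp
    rw [Set.mem_singleton_iff] at hp
    rw [hp]
    exact ⟨_, Pool.Agent.N254.SQ.power_form hQ⟩
  have key : ∀ (R : Set (Subring ℂ)) (E : Set ℕ), E.Infinite →
      ((∀ (n : ℕ) (S : Set (MvPolynomial (Fin (n + 1)) ℂ)), (∀ p ∈ S, IsForm p) →
          Groupless S → FiniteOver R S 1) ↔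
        ∀ (N D : ℕ) (Q : Fin (N * (2 * N + 1)) → MvPolynomial (Fin (N + 1)) ℂ), D ∈ E →
          D₁ N ≤ D → (∀ t, (Q t).IsHomogeneous 2) → SmoothForm (powerForm D Q) →
          Groupless {powerForm D Q} → FiniteOver R {powerForm D Q} 1) ∧
      ((∀ (n : ℕ) (S : Set (MvPolynomial (Fin (n + 1)) ℂ)), (∀ p ∈ S, IsForm p) →
          ∀ G, IsForm G → (OnTori S G ↔ FiniteOver R S G)) ↔
        ∀ (N D : ℕ) (Q : Fin (N * (2 * N + 1)) → MvPolynomial (Fin (N + 1)) ℂ), D ∈ E →
          D₁ N ≤ D → (∀ t, (Q t).IsHomogeneous 2) → SmoothForm (powerForm D Q) →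
          ∀ G, IsForm G → (OnTori {powerForm D Q} G ↔ FiniteOver R {powerForm D Q} G)) := by
    intro R E hE
    have hR := Pool.Agent.N254.SQ.t_ring R
    refine ⟨⟨?_, ?_⟩, ⟨?_, ?_⟩⟩
    · intro h N D Q _ _ hQ _ hgl
      exact h N _ (hform N D Q hQ) hgl
    · intro h n S hS hgl
      rcases Nat.eq_zero_or_pos n with hn | hn
      · subst hn
        exact zero_fg R S 1
      · obtain ⟨T, d, N, D, m, Q, hTS, hT, hD, hD1, hQ, hsm, hg⟩ := choice H hE hn hS
        have h1 : OnTori T 1 := tori_mono (fun x hx => (hTS x).1 hx) hgl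
        have h2 : OnTori {powerForm D Q} 1 := by
          rw [tori_iff hg, pull_one]
          exact h1
        have h3 : FiniteOver R {powerForm D Q} 1 := h N D Q hD hD1 hQ hsm h2
        have h4 := hR.pullback n N d m T _ hg 1 ⟨0, isHomogeneous_one _ _⟩ h3
        rw [pull_one] at h4
        exact hR.mono n T S (fun x hx => (hTS x).2 hx) 1 h4
    · intro h N D Q _ _ hQ _ G hG
      exact h N _ (hform N D Q hQ) G hG
    · intro h n S hS G hG
      rcases Nat.eq_zero_or_pos n with hn | hn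
      · subst hn
        exact ⟨fun _ => zero_fg R S G, fun _ => zero_tori S G⟩
      · obtain ⟨T, d, N, D, m, Q, hTS, hT, hD, hD1, hQ, hsm, hg⟩ := choice H hE hn hS
        have h1 := back hR hg hT (h N D Q hD hD1 hQ hsm) hG
        constructor
        · intro h2
          have h3 : OnTori T G := tori_mono (fun x hx => (hTS x).1 hx) h2
          exact hR.mono n T S (fun x hx => (hTS x).2 hx) G (h1.1 h3)
        · intro h2
          have h3 := hR.mono n S T (fun x hx => (hTS x).1 hx) G h2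
          exact tori_mono (fun x hx => (hTS x).2 hx) (h1.2 h3)
  refine ⟨D₁, fun n d hn hd => ?_, fun E hE => (key fgRings E hE).1, key⟩
  · obtain ⟨N, m, hm, H2⟩ := H n d hn hd
    refine ⟨N, m, ⟨hm.deg, hm.inj, hm.surj⟩, fun D hD S hS => ?_⟩
    obtain ⟨Q, hQ, hsm, hv, hg⟩ := H2 D hD S hS
    refine ⟨Q, hQ, hsm, hv, fun G _ => tori_iff hg, ?_⟩
    have h1 := tori_iff hg (G := 1)
    rw [pull_one] at h1
    exact h1

end Pool.Agent.Results.MP_c7af3c_ag.SmoothHypersurfacesSuffice
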